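import Pool.Agent.KS6_83.KG.F
import Pool.Agent.KS6_83.KG.R

/-!
# Kneser graphs of diameter at most six are Class 0

The proof uses the weight certificates of the starting library (`Pool.Graph.R_seed8.R11.Kneser`);
the weight tables of 68 Kneser graphs were found by linear programming, and the weights for the
graphs of diameter at most three have a closed form.
-/

set_option autoImplicit false

namespace Pool.Agent.Results.MP_9946dc_co.DiameterSix

/-- The Kneser graph `K(m, t)`: the vertices are the `t`-element subsets of an `m`-element set,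
two (different) vertices are adjacent when they are disjoint. -/
def kneser (m t : ℕ) : SimpleGraph {s : Finset (Fin m) // s.card = t} where
  Adj a b := a ≠ b ∧ Disjoint a.1 b.1
  symm := ⟨fun _ _ h => ⟨h.1.symm, h.2.symm⟩⟩
  loopless := ⟨fun _ h => h.1 rfl⟩

section

variable {V : Type} [DecidableEq V]

/-- One pebbling move from the configuration `C` to the configuration `C'`: two pebbles are taken
off a vertex `u` and one pebble is put on a neighbour `v` of `u`, so that
`C' + 2 e_u = C + e_v`. (As `u ≠ v`, this forces `C u ≥ 2`.) -/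
def Move (G : SimpleGraph V) (C C' : V → ℕ) : Prop :=
  ∃ u v : V, G.Adj u v ∧ C' + Pi.single u 2 = C + Pi.single v 1

/-- `C` is `r`-solvable: some finite sequence of pebbling moves puts at least one pebble
on `r`. -/
def Solvable (G : SimpleGraph V) (r : V) (C : V → ℕ) : Prop :=
  ∃ C' : V → ℕ, Relation.ReflTransGen (Move G) C C' ∧ 1 ≤ C' r

/-- `π(G, r)`: the least `k` such that every configuration of size `k` is `r`-solvable. -/
noncomputable def rootedPebblingNumber [Fintype V] (G : SimpleGraph V) (r : V) : ℕ :=
  sInf {k : ℕ | ∀ C : V → ℕ, ∑ v, C v = k → Solvable G r C}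

/-- The pebbling number `π(G)`, the maximum of `π(G, r)` over all vertices `r`. -/
noncomputable def pebblingNumber [Fintype V] (G : SimpleGraph V) : ℕ :=
  Finset.univ.sup fun r => rootedPebblingNumber G r

end

theorem of_helper {m t : ℕ} (h : Pool.Agent.R11.Kneser.pebbling
    (Pool.Agent.R11.Kneser.kneser m t) = m.choose t) :
    pebblingNumber (kneser m t) = m.choose t := h

/-- Let `1 ≤ t` and `2 t + 2 ≤ m`; the diameter of `K(m, t)` is `⌈(t - 1) / (m - 2 t)⌉ + 1` and its
degree is `C(m - t, t)`. The Kneser graph `K(m, t)` is Class 0 (its pebbling number is its number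
`C(m, t)` of vertices) in each of the following cases.

(1) `t ≤ 11`.

(2) `t - 1 ≤ 2 (m - 2 t)`, that is, the diameter is at most `3`.

(3) `t - 1 ≤ 5 (m - 2 t)`, that is, the diameter is at most `6`, and the degree is at most `32767`.

The Kneser graphs of Q1 are eleven of the graphs in (1), and of the graphs in (2). -/
theorem result (m t : ℕ) (ht : 1 ≤ t) (hm : 2 * t + 2 ≤ m)
    (h : t ≤ 11 ∨ t - 1 ≤ 2 * (m - 2 * t) ∨
      (t - 1 ≤ 5 * (m - 2 * t) ∧ (m - t).choose t ≤ 32767)) :
    pebblingNumber (kneser m t) = m.choose t := by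
  rcases h with h | h | ⟨h1, h2⟩
  · exact of_helper (Pool.Agent.KS6_83.KG.all_small ht hm (Or.inl h))
  · rcases Nat.lt_or_ge m (3 * t) with h3 | h3
    · rcases Nat.lt_or_ge m (2 * t + 3) with h4 | h4
      · exact of_helper (Pool.Agent.KS6_83.KG.all_small ht hm (Or.inl (by omega)))
      · exact of_helper (Pool.Agent.KS6_83.KG.cz_three h4 h3 (by omega))
    · exact of_helper (Pool.Agent.KS6_83.KG.cz_large ht h3)
  · exact of_helper (Pool.Agent.KS6_83.KG.all_small ht hm (Or.inr ⟨by omega, h2⟩))

end Pool.Agent.Results.MP_9946dc_co.DiameterSix
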